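import Pool.Agent.H.MP_6f0325_co.Defs

set_option autoImplicit false

namespace Pool.Agent.H.MP_6f0325_co

open Finset MvPolynomial Equiv

def F (n : ℕ) (b a : ℕ → ℕ) : ℤ :=
  ∑ σ : Perm (Fin n), if ∀ i : Fin n, b i + (σ i).rev.val = a i then (Perm.sign σ : ℤ) else 0

lemma vdm (N : ℕ) : ∏ p ∈ (univ : Finset (Fin N × Fin N)).filter (fun p => p.1 < p.2),
      (X p.1 - X p.2 : MvPolynomial (Fin N) ℤ) =
    ∑ σ : Perm (Fin N), monomial (Finsupp.equivFunOnFinite.symm fun i => (σ i).rev.val)
      (Perm.sign σ : ℤ) := by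
  have h := Matrix.det_projVandermonde (fun _ : Fin N => (1 : MvPolynomial (Fin N) ℤ)) X
  have h2 : ∏ p ∈ (univ : Finset (Fin N × Fin N)).filter (fun p => p.1 < p.2),
      (X p.1 - X p.2 : MvPolynomial (Fin N) ℤ) = ∏ i, ∏ j ∈ Ioi i, (1 * X i - 1 * X j) := by
    rw [prod_filter, Fintype.prod_prod_type]
    refine prod_congr rfl fun i _ => ?_
    rw [← prod_filter]
    refine prod_congr (by ext; simp) fun j _ => by simp
  rw [h2, ← h, ← Matrix.det_transpose, Matrix.det_apply']
  refine sum_congr rfl fun σ _ => ?_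
  simp only [Matrix.transpose_apply, Matrix.projVandermonde_apply, one_pow, one_mul]
  rw [monomial_eq, Finsupp.prod_fintype _ _ (by simp)]
  simp

def cnt {V : Type} [Fintype V] {N : ℕ} (c : V → Fin N) (i : ℕ) : ℕ :=
  (univ.filter fun v => (c v).val = i).card

lemma coeff_eq {V : Type} [Fintype V] {N : ℕ} (S : Finset (V → Fin N)) (a : ℕ → ℕ) :
    coeff (Finsupp.equivFunOnFinite.symm fun i : Fin N => a i)
      ((∑ c ∈ S, ∏ v, (X (c v) : MvPolynomial (Fin N) ℤ)) *
        ∏ p ∈ (univ : Finset (Fin N × Fin N)).filter (fun p => p.1 < p.2), (X p.1 - X p.2)) =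
      ∑ c ∈ S, F N (cnt c) a := by
  rw [vdm, sum_mul, coeff_sum]
  refine sum_congr rfl fun c _ => ?_
  have h : ∏ v, (X (c v) : MvPolynomial (Fin N) ℤ) =
      monomial (Finsupp.equivFunOnFinite.symm fun i : Fin N => cnt c i) 1 := by
    have : (Finsupp.equivFunOnFinite.symm fun i : Fin N => cnt c i) =
        ∑ v, Finsupp.single (c v) 1 := by
      ext i
      simp [cnt, Finsupp.finsetSum_apply, Finsupp.single_apply, Fin.ext_iff]
    rw [this, monomial_sum_one]
    rfl
  rw [h, mul_sum, coeff_sum, F]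
  refine sum_congr rfl fun σ _ => ?_
  rw [monomial_mul, coeff_monomial, one_mul]
  congr 1
  simp [Finsupp.ext_iff]

lemma F_step (n : ℕ) (b a : ℕ → ℕ) (h : b 0 + n = a 0) :
    F (n + 1) b a = F n (fun i => b (i + 1)) (fun i => a (i + 1)) := by
  rw [F, ← Perm.decomposeFin.symm.sum_comp, Fintype.sum_prod_type, Fin.sum_univ_succ, F]
  rw [sum_eq_zero (s := univ) (f := fun p : Fin n => ∑ e : Perm (Fin n), _), add_zero]
  · refine sum_congr rfl fun e _ => ?_
    simp [Fin.forall_fin_succ, Perm.decomposeFin.symm_sign, h]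
  · intro p _
    refine sum_eq_zero fun e _ => if_neg fun hh => ?_
    have := hh 0
    simp only [Perm.decomposeFin_symm_apply_zero, Fin.val_zero, Fin.val_rev, Fin.val_succ] at this
    omega

lemma F_iter (n m : ℕ) : ∀ b a : ℕ → ℕ, (∀ i < m, b i + (n + m - 1 - i) = a i) →
    F (n + m) b a = F n (fun i => b (i + m)) (fun i => a (i + m)) := by
  induction m with
  | zero => intro b a _; rfl
  | succ m ih =>
    intro b a h
    rw [← add_assoc, F_step _ _ _ (by simpa using h 0 (by omega)), ih]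
    · rfl
    · intro i hi
      have := h (i + 1) (by omega)
      omega

def alN (i : ℕ) : ℕ := if i < 10 then 38 - 3 * i else if i = 10 then 6 else 15 - i

lemma top (b : ℕ → ℕ) (hb : ∀ k ≤ 10, ∑ i ∈ range k, b i + k * k ≤ 26 * k) (σ : Perm (Fin 14))
    (h : ∀ i : Fin 14, b i + (σ i).rev.val = alN i) : ∀ i < 10, b i + 2 * i = 25 := by
  have : ∀ k ≤ 10, (∀ i : Fin 14, i.val < k → σ i = i ∧ b i + 2 * i = 25) ∧
      ∑ i ∈ range k, b i + k * k = 26 * k := by
    intro k
    induction k with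
    | zero => simp
    | succ k ih =>
      intro hk
      obtain ⟨h1, h2⟩ := ih (by omega)
      have h3 := hb (k + 1) hk
      rw [sum_range_succ] at h3 ⊢
      have h4 := h ⟨k, by omega⟩
      have h5 : (k + 1) * (k + 1) = k * k + 2 * k + 1 := by ring
      simp only [alN, Fin.val_rev, if_pos (show k < 10 by omega)] at h4
      have h6 : k ≤ (σ ⟨k, by omega⟩).val := by
        by_contra h7
        have := congrArg Fin.val (σ.injective (h1 _ (not_le.1 h7)).1)
        simp only at this
        omega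
      have h8 := (σ ⟨k, by omega⟩).2
      refine ⟨fun i hi => ?_, by omega⟩
      by_cases e : i.val = k
      · subst e
        simp only [Fin.eta] at h4 h6 h8
        exact ⟨Fin.ext (by omega), by omega⟩
      · exact h1 i (by omega)
  intro i hi
  exact ((this 10 le_rfl).1 ⟨i, by omega⟩ hi).2

def psi (b : ℕ → ℕ) : ℤ := F 4 b fun i => alN (i + 10)

lemma F14 (b : ℕ → ℕ) (hb : ∀ k ≤ 10, ∑ i ∈ range k, b i + k * k ≤ 26 * k) :
    F 14 b alN = if ∀ i < 10, b i + 2 * i = 25 then psi (fun i => b (i + 10)) else 0 := by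
  split_ifs with h
  · refine F_iter 4 10 b alN fun i hi => ?_
    have := h i hi
    simp only [alN, if_pos hi]
    omega
  · exact sum_eq_zero fun σ _ => if_neg fun hh => h (top b hb σ hh)

end Pool.Agent.H.MP_6f0325_co
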