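import Pool.Agent.H.MP_6f0325_co.Str4

set_option autoImplicit false

namespace Pool.Agent.H.MP_6f0325_co

open Finset

def Cm (r x c r' x' c' : ℕ) : Prop :=
  c = c' → (x ≤ x' ∧ r - x ≤ r' - x') ∨ (x' ≤ x ∧ r' - x' ≤ r - x)

lemma Cm.symm {r x c r' x' c' : ℕ} (h : Cm r x c r' x' c') : Cm r' x' c' r x c :=
  fun e => (h e.symm).symm

lemma Cm.rf {r x c : ℕ} : Cm r x c r x c := fun _ => Or.inl ⟨le_rfl, le_rfl⟩

lemma mL {o p q r x c : ℕ} (h : r < 12 ∧ o + x ≤ r ∧ p < q ∧ o + q ≤ 12) :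
    (Cm 12 o 0 r (o + x) c ∧ Cm 12 (o + p) 1 r (o + x) c ∧ Cm 12 (o + q) 2 r (o + x) c) ↔
      okL p q r x c := by
  unfold Cm okL
  refine and_congr ?_ (and_congr ?_ ?_) <;> omega

lemma mU {o p q r x c : ℕ} (h : 12 < r ∧ o + x ≤ 12 ∧ p < q ∧ o + q ≤ 12) :
    (Cm 12 o 0 r (o + x) c ∧ Cm 12 (o + p) 1 r (o + x) c ∧ Cm 12 (o + q) 2 r (o + x) c) ↔
      okU p q r x c := by
  unfold Cm okU
  refine and_congr ?_ (and_congr ?_ ?_) <;> omega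

lemma mC {o r x c r' x' c' : ℕ} (h : r < r' ∧ o + x ≤ r ∧ o + x' ≤ r') :
    Cm r (o + x) c r' (o + x') c' ↔ cp r x c r' x' c' := by
  unfold Cm cp
  omega

lemma mS {o r x c x' c' : ℕ} (h : x < x' ∧ o + x' ≤ r) :
    Cm r (o + x) c r (o + x') c' ↔ c ≠ c' := by
  unfold Cm
  omega

lemma mX {o p q r x c r' x' c' : ℕ}
    (h : r < 12 ∧ 12 < r' ∧ r' < 15 ∧ o + x ≤ r ∧ o + x' ≤ 12 ∧ c < 4 ∧ p < q ∧ q ≤ 12)
    (h1 : okL p q r x c) (h2 : okU p q r' x' c') :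
    Cm r (o + x) c r' (o + x') c' ↔ lo c x ≤ hi c' x' ∧ lo c (r - x) ≤ hi c' (r' - x') := by
  unfold Cm lo hi
  unfold okL at h1
  unfold okU at h2
  split_ifs <;> omega

def BIG (p q b1 x1 b2 x2 a x0 d1 y1 d2 y2 e y0 : ℕ) : Prop :=
  okL p q 11 b1 x1 ∧ (x1 ≠ x2 ∧ okL p q 11 b2 x2) ∧
  (okL p q 10 a x0 ∧ cp 10 a x0 11 b1 x1 ∧ cp 10 a x0 11 b2 x2) ∧
  okU p q 13 d1 y1 ∧ (y1 ≠ y2 ∧ okU p q 13 d2 y2) ∧
  (okU p q 14 e y0 ∧ cp 13 d1 y1 14 e y0 ∧ cp 13 d2 y2 14 e y0) ∧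
  max (lo x1 b1) (max (lo x2 b2) (lo x0 a)) ≤ min (hi y1 d1) (min (hi y2 d2) (hi y0 e)) ∧
  max (lo x1 (11 - b1)) (max (lo x2 (11 - b2)) (lo x0 (10 - a))) ≤
    min (hi y1 (13 - d1)) (min (hi y2 (13 - d2)) (hi y0 (14 - e)))

lemma PD_iff {o p q b1 x1 b2 x2 a x0 d1 y1 d2 y2 e y0 : ℕ}
    (hb : b1 < p ∧ p ≤ b2 ∧ b2 < q ∧ b1 ≤ a ∧ a < b2 ∧ d1 ≤ p ∧ p < d2 ∧ d2 ≤ q ∧ e ≤ d2 ∧
      o + q < 13 ∧ x1 < 4 ∧ x2 < 4 ∧ x0 < 4) :
    PD ![o, o + p, o + q, o + b1, o + b2, o + a, o + d1, o + d2, o + e]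
      ![0, 1, 2, x1, x2, x0, y1, y2, y0] ↔ BIG p q b1 x1 b2 x2 a x0 d1 y1 d2 y2 e y0 := by
  simp only [BIG, le_min_iff, max_le_iff]
  constructor
  · intro h
    have l1 : okL p q 11 b1 x1 :=
      (mL (o := o) (by omega)).1 ⟨h 0 3, h 1 3, h 2 3⟩
    have l2 : okL p q 11 b2 x2 :=
      (mL (o := o) (by omega)).1 ⟨h 0 4, h 1 4, h 2 4⟩
    have l0 : okL p q 10 a x0 :=
      (mL (o := o) (by omega)).1 ⟨h 0 5, h 1 5, h 2 5⟩
    have u1 : okU p q 13 d1 y1 :=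
      (mU (o := o) (by omega)).1 ⟨h 0 6, h 1 6, h 2 6⟩
    have u2 : okU p q 13 d2 y2 :=
      (mU (o := o) (by omega)).1 ⟨h 0 7, h 1 7, h 2 7⟩
    have u0 : okU p q 14 e y0 :=
      (mU (o := o) (by omega)).1 ⟨h 0 8, h 1 8, h 2 8⟩
    have c36 := (mX (o := o) (by omega) l1 u1).1 (h 3 6)
    have c37 := (mX (o := o) (by omega) l1 u2).1 (h 3 7)
    have c38 := (mX (o := o) (by omega) l1 u0).1 (h 3 8)
    have c46 := (mX (o := o) (by omega) l2 u1).1 (h 4 6)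
    have c47 := (mX (o := o) (by omega) l2 u2).1 (h 4 7)
    have c48 := (mX (o := o) (by omega) l2 u0).1 (h 4 8)
    have c56 := (mX (o := o) (by omega) l0 u1).1 (h 5 6)
    have c57 := (mX (o := o) (by omega) l0 u2).1 (h 5 7)
    have c58 := (mX (o := o) (by omega) l0 u0).1 (h 5 8)
    refine ⟨l1, ⟨(mS (o := o) (r := 11) (by omega)).1 (h 3 4), l2⟩,
      ⟨l0, (mC (o := o) (by omega)).1 (h 5 3), (mC (o := o) (by omega)).1 (h 5 4)⟩,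
      u1, ⟨(mS (o := o) (r := 13) (by omega)).1 (h 6 7), u2⟩,
      ⟨u0, (mC (o := o) (by omega)).1 (h 6 8), (mC (o := o) (by omega)).1 (h 7 8)⟩, ?_, ?_⟩
    · exact ⟨⟨c36.1, c46.1, c56.1⟩, ⟨c37.1, c47.1, c57.1⟩, c38.1, c48.1, c58.1⟩
    · exact ⟨⟨c36.2, c46.2, c56.2⟩, ⟨c37.2, c47.2, c57.2⟩, c38.2, c48.2, c58.2⟩
  · rintro ⟨l1, ⟨s1, l2⟩, ⟨l0, g1, g2⟩, u1, ⟨s2, u2⟩, ⟨u0, g3, g4⟩,
      ⟨⟨i36, i46, i56⟩, ⟨i37, i47, i57⟩, i38, i48, i58⟩,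
      ⟨j36, j46, j56⟩, ⟨j37, j47, j57⟩, j38, j48, j58⟩
    obtain ⟨f03, f13, f23⟩ := (mL (o := o) (by omega)).2 l1
    obtain ⟨f04, f14, f24⟩ := (mL (o := o) (by omega)).2 l2
    obtain ⟨f05, f15, f25⟩ := (mL (o := o) (by omega)).2 l0
    obtain ⟨f06, f16, f26⟩ := (mU (o := o) (by omega)).2 u1
    obtain ⟨f07, f17, f27⟩ := (mU (o := o) (by omega)).2 u2
    obtain ⟨f08, f18, f28⟩ := (mU (o := o) (by omega)).2 u0
    have f36 := (mX (o := o) (by omega) l1 u1).2 ⟨i36, j36⟩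
    have f37 := (mX (o := o) (by omega) l1 u2).2 ⟨i37, j37⟩
    have f38 := (mX (o := o) (by omega) l1 u0).2 ⟨i38, j38⟩
    have f46 := (mX (o := o) (by omega) l2 u1).2 ⟨i46, j46⟩
    have f47 := (mX (o := o) (by omega) l2 u2).2 ⟨i47, j47⟩
    have f48 := (mX (o := o) (by omega) l2 u0).2 ⟨i48, j48⟩
    have f56 := (mX (o := o) (by omega) l0 u1).2 ⟨i56, j56⟩
    have f57 := (mX (o := o) (by omega) l0 u2).2 ⟨i57, j57⟩
    have f58 := (mX (o := o) (by omega) l0 u0).2 ⟨i58, j58⟩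
    have f34 := (mS (o := o) (r := 11) (x := b1) (x' := b2) (by omega)).2 s1
    have f67 := (mS (o := o) (r := 13) (x := d1) (x' := d2) (by omega)).2 s2
    have f35 := ((mC (o := o) (by omega)).2 g1).symm
    have f45 := ((mC (o := o) (by omega)).2 g2).symm
    have f68 := (mC (o := o) (by omega)).2 g3
    have f78 := (mC (o := o) (by omega)).2 g4
    have f01 : Cm 12 o 0 12 (o + p) 1 := fun h => absurd h (by omega)
    have f02 : Cm 12 o 0 12 (o + q) 2 := fun h => absurd h (by omega)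
    have f12 : Cm 12 (o + p) 1 12 (o + q) 2 := fun h => absurd h (by omega)
    intro k l
    fin_cases k <;> fin_cases l
    exacts [Cm.rf, f01, f02, f03, f04, f05, f06, f07, f08,
      f01.symm, Cm.rf, f12, f13, f14, f15, f16, f17, f18,
      f02.symm, f12.symm, Cm.rf, f23, f24, f25, f26, f27, f28,
      f03.symm, f13.symm, f23.symm, Cm.rf, f34, f35, f36, f37, f38,
      f04.symm, f14.symm, f24.symm, f34.symm, Cm.rf, f45, f46, f47, f48,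
      f05.symm, f15.symm, f25.symm, f35.symm, f45.symm, Cm.rf, f56, f57, f58,
      f06.symm, f16.symm, f26.symm, f36.symm, f46.symm, f56.symm, Cm.rf, f67, f68,
      f07.symm, f17.symm, f27.symm, f37.symm, f47.symm, f57.symm, f67.symm, Cm.rf, f78,
      f08.symm, f18.symm, f28.symm, f38.symm, f48.symm, f58.symm, f68.symm, f78.symm, Cm.rf]

end Pool.Agent.H.MP_6f0325_co
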