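import Pool.Agent.H.MP_6f0325_co.Cm

set_option autoImplicit false
set_option linter.constructorNameAsVariable false

namespace Pool.Agent.H.MP_6f0325_co

open Finset Classical

lemma sl_append {α : Type} (l m : List α) (f : α → ℕ) : sl (l ++ m) f = sl l f + sl m f := by
  induction l with
  | nil => exact (zero_add _).symm
  | cons h t ih =>
    show f h + sl (t ++ m) f = f h + sl t f + sl m f
    rw [ih, add_assoc]

lemma sl_fm {α : Type} (a n : ℕ) (g : ℕ → List α) (f : α → ℕ) :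
    sl (fm a n g) f = ∑ x ∈ Ico a (a + n), sl (g x) f := by
  induction n with
  | zero => simp [fm, sl]
  | succ n ih =>
    rw [← add_assoc, sum_Ico_succ_top (by omega), ← ih, add_comm (sl _ _), ← sl_append]
    rfl

lemma sl_ite {α : Type} (c : Prop) [Decidable c] (l : List α) (f : α → ℕ) :
    sl (if c then l else []) f = if c then sl l f else 0 := by
  split_ifs <;> rfl

lemma sl_one {α : Type} (e : α) (f : α → ℕ) : sl [e] f = f e := rfl

lemma force_eq {β : Type} (n : ℕ) (f : ℕ → β) : force n f = f n := by cases n <;> rfl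

lemma norm_eq (l : List (ℕ × ℕ × ℕ)) : ∀ k, norm l k = k l := by
  induction l with
  | nil => intro k; rfl
  | cons h t ih =>
    intro k
    show (force h.1 fun a => force h.2.1 fun b => force h.2.2 fun c =>
      norm t fun l => k ((a, b, c) :: l)) = _
    simp only [force_eq, ih]

lemma brec (a b x : ℕ) : (Bool.rec 0 x (Nat.ble a b) : ℕ) = if a ≤ b then x else 0 := by
  by_cases h : a ≤ b
  · rw [Nat.ble_eq_true_of_le h, if_pos h]
  · rw [if_neg h, Bool.eq_false_iff.2 fun e => h (Nat.le_of_ble_eq_true e)]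

lemma isz (s : Finset ℕ) (c : Prop) [Decidable c] (f : ℕ → ℕ) :
    (if c then ∑ x ∈ s, f x else 0) = ∑ x ∈ s, if c then f x else 0 := by
  split_ifs <;> simp

lemma low_sum (p q : ℕ) (f : ℕ × ℕ × ℕ → ℕ) : sl (low p q) f =
    ∑ b1 ∈ Ico 0 (0 + p), ∑ x1 ∈ Ico 0 (0 + 4), ∑ b2 ∈ Ico p (p + (q - p)), ∑ x2 ∈ Ico 0 (0 + 4),
    ∑ a ∈ Ico b1 (b1 + (b2 - b1)), ∑ x0 ∈ Ico 0 (0 + 4),
      if okL p q 11 b1 x1 ∧ (x1 ≠ x2 ∧ okL p q 11 b2 x2) ∧
        (okL p q 10 a x0 ∧ cp 10 a x0 11 b1 x1 ∧ cp 10 a x0 11 b2 x2) then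
        f (max (lo x1 b1) (max (lo x2 b2) (lo x0 a)),
            max (lo x1 (11 - b1)) (max (lo x2 (11 - b2)) (lo x0 (10 - a))),
            111 + pw x1 + pw x2 + pw x0) else 0 := by
  simp only [low, sl_fm, sl_ite, sl_one, isz, ← ite_and]

lemma upp_sum (p q : ℕ) (f : ℕ × ℕ × ℕ → ℕ) : sl (upp p q) f =
    ∑ d1 ∈ Ico 1 (1 + p),
    ∑ y1 ∈ Ico 0 (0 + 4), ∑ d2 ∈ Ico (p + 1) (p + 1 + (q - p)), ∑ y2 ∈ Ico 0 (0 + 4),
    ∑ e ∈ Ico (d1 + 1) (d1 + 1 + (d2 - d1)), ∑ y0 ∈ Ico 0 (0 + 4),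
      if okU p q 13 d1 y1 ∧ (y1 ≠ y2 ∧ okU p q 13 d2 y2) ∧
        (okU p q 14 e y0 ∧ cp 13 d1 y1 14 e y0 ∧ cp 13 d2 y2 14 e y0) then
        f (min (hi y1 d1) (min (hi y2 d2) (hi y0 e)),
            min (hi y1 (13 - d1)) (min (hi y2 (13 - d2)) (hi y0 (14 - e))),
            pw y1 + pw y2 + pw y0) else 0 := by
  simp only [upp, sl_fm, sl_ite, sl_one, isz, ← ite_and]

lemma pairs_eq (f : ℕ → ℕ) (p q : ℕ) : pairs f p q =
    ∑ b1 ∈ Ico 0 (0 + p), ∑ x1 ∈ Ico 0 (0 + 4), ∑ b2 ∈ Ico p (p + (q - p)), ∑ x2 ∈ Ico 0 (0 + 4),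
    ∑ a ∈ Ico b1 (b1 + (b2 - b1)), ∑ x0 ∈ Ico 0 (0 + 4), ∑ d1 ∈ Ico 1 (1 + p),
    ∑ y1 ∈ Ico 0 (0 + 4), ∑ d2 ∈ Ico (p + 1) (p + 1 + (q - p)), ∑ y2 ∈ Ico 0 (0 + 4),
    ∑ e ∈ Ico (d1 + 1) (d1 + 1 + (d2 - d1)), ∑ y0 ∈ Ico 0 (0 + 4),
      if BIG p q b1 x1 b2 x2 a x0 d1 y1 d2 y2 e y0 then
        f (111 + pw x1 + pw x2 + pw x0 + (pw y1 + pw y2 + pw y0)) else 0 := by
  rw [pairs, norm_eq, norm_eq, low_sum]
  iterate 6 refine sum_congr rfl fun _ _ => ?_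
  rw [upp_sum]
  iterate 6 (rw [isz]; refine sum_congr rfl fun _ _ => ?_)
  simp only [brec, Nat.add_eq, ← ite_and]
  exact if_congr (by simp only [BIG, and_assoc]) rfl rfl

lemma bij_gen {α β : Type} [Fintype α] (P : α → Prop) (S : Finset β) (Q : β → Prop)
    (i : α → β) (j : β → α) (f : α → ℕ) (g : β → ℕ)
    (h1 : ∀ a, P a → i a ∈ S ∧ j (i a) = a ∧ f a = g (i a))
    (h2 : ∀ b ∈ S, (Q b ↔ P (j b)) ∧ i (j b) = b) :
    ∑ a ∈ univ.filter P, f a = ∑ b ∈ S, if Q b then g b else 0 := by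
  rw [← sum_filter]
  refine sum_nbij' i j (fun a ha => ?_) (fun b hb => ?_) (fun a ha => ?_) (fun b hb => ?_)
    fun a ha => ?_
  · have := h1 a (by simpa using ha)
    refine mem_filter.2 ⟨this.1, (h2 _ this.1).1.2 ?_⟩
    rw [this.2.1]
    simpa using ha
  · rw [mem_filter] at hb
    simpa using (h2 b hb.1).1.1 hb.2
  · exact (h1 a (by simpa using ha)).2.1
  · exact (h2 b (mem_filter.1 hb).1).2
  · exact (h1 a (by simpa using ha)).2.2

def Nn (d : DT) : Prop := Dd d ∧ d.2 0 = 0 ∧ d.2 1 = 1 ∧ d.2 2 = 2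

def code (d : DT) : ℕ := ∑ k, pw (d.2 k)

lemma tot_eq (f : ℕ → ℕ) : ∑ d ∈ univ.filter Nn, f (code d) =
    ∑ q ∈ range 13, ∑ _o ∈ range (13 - q), ∑ p ∈ Ico 1 (1 + (q - 1)), pairs f p q := by
  simp only [pairs_eq, sum_sigma']
  refine bij_gen Nn _ _ (fun d => ⟨tt d 2 - tt d 0, tt d 0, tt d 1 - tt d 0, tt d 3 - tt d 0,
    d.2 3, tt d 4 - tt d 0, d.2 4, tt d 5 - tt d 0, d.2 5, tt d 6 - tt d 0, d.2 6,
    tt d 7 - tt d 0, d.2 7, tt d 8 - tt d 0, d.2 8⟩)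
    (fun ⟨q, o, p, b1, x1, b2, x2, a, x0, d1, y1, d2, y2, e, y0⟩ =>
      (fun k => Fin.ofNat 13 (![o, o + p, o + q, o + b1, o + b2, o + a, o + d1, o + d2, o + e] k),
        fun k => Fin.ofNat 4 (![0, 1, 2, x1, x2, x0, y1, y2, y0] k))) _ _ ?_ ?_
  · rintro ⟨t, col⟩ ⟨⟨h1, -⟩, h2, h3, h4⟩
    simp only [Inter, tt] at h1 h2 h3 h4
    refine ⟨?_, Prod.ext ?_ ?_, ?_⟩
    · simp only [mem_sigma, mem_Ico, mem_range, tt]
      omega
    · ext k
      fin_cases k <;> simp [tt] <;> omega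
    · ext k
      fin_cases k <;> simp [h2, h3, h4]
    · congr 1
      simp [code, Fin.sum_univ_succ, h2, h3, h4]
      simp only [show pw 0 = 1 from rfl, show pw 1 = 10 from rfl, show pw 2 = 100 from rfl]
      omega
  · rintro ⟨q, o, p, b1, x1, b2, x2, a, x0, d1, y1, d2, y2, e, y0⟩ h
    simp only [mem_sigma, mem_Ico, mem_range] at h
    have e1 : (fun k => (Fin.ofNat 13 (![o, o + p, o + q, o + b1, o + b2, o + a, o + d1, o + d2,
        o + e] k)).val) = ![o, o + p, o + q, o + b1, o + b2, o + a, o + d1, o + d2, o + e] := by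
      ext k
      fin_cases k <;> simp <;> omega
    have e2 : (fun k => (Fin.ofNat 4 (![0, 1, 2, x1, x2, x0, y1, y2, y0] k)).val) =
        ![0, 1, 2, x1, x2, x0, y1, y2, y0] := by
      ext k
      fin_cases k <;> simp <;> omega
    constructor
    · unfold Nn Dd tt
      simp only [e1, e2]
      rw [PD_iff (by omega)]
      have : Inter ![o, o + p, o + q, o + b1, o + b2, o + a, o + d1, o + d2, o + e] := by
        simp [Inter]
        omega
      exact ⟨fun h => ⟨⟨this, h⟩, rfl, rfl, rfl⟩, fun h => h.1.2⟩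
    · unfold tt
      simp only [congrFun e1, congrFun e2]
      simp

end Pool.Agent.H.MP_6f0325_co
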