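import Mathlib

set_option autoImplicit false

namespace Pool.Agent.H.MP_6f0325_co

open Finset

def tab1 : ℕ := 71448348576730208360402604523024658663907311448489024716315762120903343689024729575797745341822268781565486068923382166003404478198036305411663261205108935613484304094404513634908106996994724521643787035497718754691187425243400499700682601085949000156090123291365772729380059602177481793502641750318216628809312991331800528212613253740274026664270953967005471819374831409060436728848779034587913976108059855865902901198829897137887671438369327058744035009830774728081250038751134571023797324621714781616801146975129037999601571492276894782805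

def tab2 : ℕ := 40838932114735564725686741212546255360813367711522412938391076718271576205239913675411070938604908196346811352057835398624832208351964136338138128144171078578812202243230110143550756592951462784606898416240368231116419004796226496947813635061531414389669255900979711260879890287637150162488944065087470502974570784584452422854019247525920597674204549844433977637853930582921820883989364243713056039813969278371680786268805115412480756513236497042966786033999635430684683809218752619630747150390158285488530083422812741256205158520360560101643595352766680285375942065427088113174621240751174813527506750057947544642189667931895923155237624908264932396762452522155076575961898995086622441217939072721270990163695974634410308521238016386326174969510238756609166512235329002111616310597616304682648896771286433603321616186253101743912498415504527711627602447908298095094141015972836876727578990929514909825719864033650447388179856880906715276483470701715857001916189334710741237739249810198663104485402494250867143020999507496306348111051986551131842956210234078397120880267814734020634760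

def tab3 : ℕ := 124754235638204154780865258076036085323715246272224546126589890955411980409688905848923369859879201731008772653960907417627255810292892239939973153396523421289642912648913169195643452591702024

def t2 (code : ℕ) : ℕ := Nat.mod (Nat.shiftRight tab2 (Nat.mul 4 code)) 16

def ww (code : ℕ) : ℕ := Nat.mod (Nat.shiftRight tab3 (Nat.mul 40 (t2 code))) 1099511627776

noncomputable def fm {α : Type} (a n : ℕ) (g : ℕ → List α) : List α :=
  Nat.rec [] (fun k acc => g (a + k) ++ acc) n

noncomputable def sl {α : Type} (l : List α) (f : α → ℕ) : ℕ :=
  List.rec 0 (fun h _ acc => Nat.add (f h) acc) l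

/-- A cell below the middle rank is compatible with the middle cells `0, p, q`. -/
def okL (p q r x c : ℕ) : Prop :=
  (c = 0 → x ≤ 0 ∧ r - x ≤ 12) ∧ (c = 1 → x ≤ p ∧ r - x ≤ 12 - p) ∧ (c = 2 → x ≤ q ∧ r - x ≤ 12 - q)

def okU (p q r x c : ℕ) : Prop :=
  (c = 0 → 12 ≤ r - x) ∧ (c = 1 → p ≤ x ∧ 12 - p ≤ r - x) ∧ (c = 2 → q ≤ x ∧ 12 - q ≤ r - x)

def cp (r x c r' x' c' : ℕ) : Prop := c = c' → x ≤ x' ∧ r - x ≤ r' - x'

instance (p q r x c : ℕ) : Decidable (okL p q r x c) := by unfold okL; infer_instance
instance (p q r x c : ℕ) : Decidable (okU p q r x c) := by unfold okU; infer_instance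
instance (r x c r' x' c' : ℕ) : Decidable (cp r x c r' x' c') := by unfold cp; infer_instance

def pw (c : ℕ) : ℕ := if c = 3 then 0 else 10 ^ c

def lo (c x : ℕ) : ℕ := if c = 3 then x else 0

def hi (c x : ℕ) : ℕ := if c = 3 then x else 99

noncomputable def low (p q : ℕ) : List (ℕ × ℕ × ℕ) :=
  fm 0 p fun b1 => fm 0 4 fun x1 => if okL p q 11 b1 x1 then
    fm p (q - p) fun b2 => fm 0 4 fun x2 => if x1 ≠ x2 ∧ okL p q 11 b2 x2 then
      fm b1 (b2 - b1) fun a => fm 0 4 fun x0 =>
        if okL p q 10 a x0 ∧ cp 10 a x0 11 b1 x1 ∧ cp 10 a x0 11 b2 x2 then
          [(max (lo x1 b1) (max (lo x2 b2) (lo x0 a)),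
            max (lo x1 (11 - b1)) (max (lo x2 (11 - b2)) (lo x0 (10 - a))),
            111 + pw x1 + pw x2 + pw x0)] else [] else [] else []

noncomputable def upp (p q : ℕ) : List (ℕ × ℕ × ℕ) :=
  fm 1 p fun d1 => fm 0 4 fun x1 => if okU p q 13 d1 x1 then
    fm (p + 1) (q - p) fun d2 => fm 0 4 fun x2 => if x1 ≠ x2 ∧ okU p q 13 d2 x2 then
      fm (d1 + 1) (d2 - d1) fun e => fm 0 4 fun x0 =>
        if okU p q 14 e x0 ∧ cp 13 d1 x1 14 e x0 ∧ cp 13 d2 x2 14 e x0 then
          [(min (hi x1 d1) (min (hi x2 d2) (hi x0 e)),
            min (hi x1 (13 - d1)) (min (hi x2 (13 - d2)) (hi x0 (14 - e))),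
            pw x1 + pw x2 + pw x0)] else [] else [] else []

noncomputable def force {β : Type} (n : ℕ) (f : ℕ → β) : β :=
  Nat.rec (f 0) (fun k _ => f (Nat.succ k)) n

noncomputable def norm (l : List (ℕ × ℕ × ℕ)) : (List (ℕ × ℕ × ℕ) → ℕ) → ℕ :=
  List.rec (fun k => k []) (fun h _ ih k => force h.1 fun a => force h.2.1 fun b =>
    force h.2.2 fun c => ih fun l => k ((a, b, c) :: l)) l

noncomputable def pairs (f : ℕ → ℕ) (p q : ℕ) : ℕ :=
  norm (low p q) fun L => norm (upp p q) fun U => sl L fun l => sl U fun u =>
    Bool.rec 0 (Bool.rec 0 (f (Nat.add l.2.2 u.2.2)) (Nat.ble l.2.1 u.2.1)) (Nat.ble l.1 u.1)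

noncomputable def row (q : ℕ) : ℕ := Nat.rec 0 (fun k acc => Nat.add acc (pairs ww (k + 1) q)) (q - 1)

end Pool.Agent.H.MP_6f0325_co
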