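import Pool.Agent.H.MP_6f0325_co.R2

set_option autoImplicit false

namespace Pool.Agent.H.MP_6f0325_co

theorem row12 : row 12 = 482934712810242 := by decide +kernel

end Pool.Agent.H.MP_6f0325_co
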