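import Pool.Agent.H.MP_6f0325_co.Cmp
import Pool.Agent.H.MP_6f0325_co.R3

set_option autoImplicit false
set_option linter.constructorNameAsVariable false

namespace Pool.Agent.H.MP_6f0325_co

open Finset Equiv

def P1 (n : Fin 4 → ℕ) : ℤ :=
  ∑ σ : Perm (Fin 4), if ∀ i : Fin 4, n i + (σ i).rev.val = alN (i + 10) then (Perm.sign σ : ℤ)
    else 0

def t1 (code : ℕ) : ℕ := tab1 >>> (2 * code) % 4

def cd (n : Fin 4 → ℕ) : ℕ := n 0 + 10 * n 1 + 100 * n 2

set_option synthInstance.maxSize 4096 in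
lemma T1 : ∀ a < 10, ∀ b < 10 - a, ∀ c < 10 - a - b,
    P1 ![a, b, c, 9 - a - b - c] = t1 (cd ![a, b, c, 9 - a - b - c]) - 1 := by decide +kernel

set_option synthInstance.maxSize 4096 in
lemma T2 : ∀ a < 10, ∀ b < 10 - a, ∀ c < 10 - a - b,
    ∑ π : Perm (Fin 4), ((t1 (cd fun i => ![a, b, c, 9 - a - b - c] (π.symm i)) : ℤ) - 1) =
      t2 (cd ![a, b, c, 9 - a - b - c]) - 8 := by decide +kernel

lemma T3 : ∀ x < 16, Nat.mod (Nat.shiftRight tab3 (Nat.mul 40 x)) 1099511627776 =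
    2 ^ 32 * (x - 8) + (8 - x) := by decide +kernel

lemma vec (n : Fin 4 → ℕ) (h : ∑ i, n i = 9) : n = ![n 0, n 1, n 2, 9 - n 0 - n 1 - n 2] := by
  rw [Fin.sum_univ_four] at h
  ext i
  fin_cases i <;> simp
  omega

lemma sym (n : Fin 4 → ℕ) (h : ∑ i, n i = 9) :
    ∑ π : Perm (Fin 4), P1 (fun i => n (π.symm i)) = t2 (cd n) - 8 := by
  have h1 : ∀ n : Fin 4 → ℕ, ∑ i, n i = 9 → P1 n = t1 (cd n) - 1 := fun n h => by
    rw [vec n h]
    rw [Fin.sum_univ_four] at h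
    exact T1 _ (by omega) _ (by omega) _ (by omega)
  rw [sum_congr rfl fun π _ => h1 _ ((π.symm.sum_comp n).trans h), vec n h]
  rw [Fin.sum_univ_four] at h
  exact T2 _ (by omega) _ (by omega) _ (by omega)

open Classical in
lemma nrm {α γ : Type} [Fintype α] [Fintype γ] (P N : α → Prop) (act : γ → α → α) (g : α → ℤ)
    (h1 : ∀ π a, N a → P (act π a))
    (h2 : ∀ π a π' a', N a → N a' → act π a = act π' a' → a = a' ∧ π = π')
    (h3 : ∀ b, P b → ∃ π a, N a ∧ act π a = b) :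
    ∑ b ∈ univ.filter P, g b = ∑ a ∈ univ.filter N, ∑ π, g (act π a) := by
  rw [← sum_product']
  refine (sum_bij (fun x _ => act x.2 x.1) (fun x hx => ?_) (fun x hx y hy e => ?_)
    (fun b hb => ?_) fun _ _ => rfl).symm
  · simpa using h1 _ _ (by simpa using hx)
  · exact Prod.ext_iff.2 (h2 _ _ _ _ (by simpa using hx) (by simpa using hy) e)
  · obtain ⟨π, a, h4, h5⟩ := h3 b (by simpa using hb)
    exact ⟨(a, π), by simpa using h4, h5⟩

lemma p1 : ∀ π ρ : Perm (Fin 4), π 0 = ρ 0 → π 1 = ρ 1 → π 2 = ρ 2 → π = ρ := by decide +kernel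

lemma p2 : ∀ a b c : Fin 4, a ≠ b → a ≠ c → b ≠ c →
    ∃ π : Perm (Fin 4), π a = 0 ∧ π b = 1 ∧ π c = 2 := by decide +kernel

lemma Dd_act (π : Perm (Fin 4)) (d : DT) (h : Dd d) : Dd (d.1, π ∘ d.2) :=
  ⟨h.1, fun k l e => h.2 k l (congrArg Fin.val (π.injective (Fin.ext e)))⟩

lemma cnt_sum (col : Fin 9 → Fin 4) : ∑ i : Fin 4, cnt col i = 9 := by
  simp only [cnt, card_filter]
  rw [sum_comm]
  simp [Fin.val_inj]

lemma code_eq (d : DT) : cd (fun i => cnt d.2 i) = code d := by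
  simp only [cd, cnt, card_filter, code, mul_sum, ← sum_add_distrib]
  refine sum_congr rfl fun k _ => ?_
  generalize d.2 k = x
  revert x
  decide

open Classical in
lemma red2 : ∑ d ∈ univ.filter Dd, psi (cnt d.2) =
    ∑ d ∈ univ.filter Nn, ((t2 (code d) : ℤ) - 8) := by
  rw [nrm Dd Nn (fun (π : Perm (Fin 4)) d => (d.1, π ∘ d.2)) _ (fun π d h => Dd_act π d h.1)]
  · refine sum_congr rfl fun d _ => ?_
    rw [← code_eq, ← sym _ (cnt_sum d.2)]
    refine sum_congr rfl fun π _ => congrArg P1 (funext fun i => ?_)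
    refine congrArg _ (filter_congr fun k _ => ?_)
    simp [Fin.val_inj, eq_symm_apply]
  · rintro π ⟨t, c⟩ ρ ⟨s, e⟩ ⟨-, a0, a1, a2⟩ ⟨-, b0, b1, b2⟩ h
    obtain ⟨rfl, h⟩ := Prod.mk.inj h
    have h0 := congrFun h 0
    have h1 := congrFun h 1
    have h2 := congrFun h 2
    simp only [Function.comp] at *
    rw [a0, b0] at h0
    rw [a1, b1] at h1
    rw [a2, b2] at h2
    obtain rfl := p1 π ρ h0 h1 h2
    exact ⟨congrArg _ (funext fun k => π.injective (congrFun h k)), rfl⟩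
  · intro d h
    have h1 := h.1
    unfold Inter at h1
    have ne : ∀ k l, rkk k = 12 → rkk l = 12 → tt d k < tt d l → tt d l < 13 → d.2 k ≠ d.2 l := by
      intro k l a b c c' e
      have := h.2 k l (congrArg Fin.val e)
      omega
    obtain ⟨π, h2⟩ := p2 _ _ _ (ne 0 1 rfl rfl (by omega) (by omega))
      (ne 0 2 rfl rfl (by omega) (by omega)) (ne 1 2 rfl rfl (by omega) (by omega))
    refine ⟨π.symm, (d.1, π ∘ d.2), ⟨Dd_act π d h, h2⟩, Prod.ext rfl ?_⟩
    ext k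
    simp

lemma row_eq (q : ℕ) : ∑ p ∈ Ico 1 (1 + (q - 1)), pairs ww p q = row q := by
  unfold row
  generalize q - 1 = m
  induction m with
  | zero => simp
  | succ m ih =>
    rw [← add_assoc, sum_Ico_succ_top (by omega), ih, add_comm 1 m]
    rfl

lemma fin_gen {α : Type} (S : Finset α) (x : α → ℕ)
    (h : ∑ d ∈ S, (2 ^ 32 * (x d - 8) + (8 - x d)) = 7200650112376292) :
    ∑ d ∈ S, ((x d : ℤ) - 8) < 0 := by
  have h2 : ∀ c : ℕ, ((c : ℤ) - 8) = ((c - 8 : ℕ) : ℤ) - ((8 - c : ℕ) : ℤ) := fun c => by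
    omega
  simp only [sum_add_distrib, ← mul_sum] at h
  simp only [h2, sum_sub_distrib, ← Nat.cast_sum]
  omega

lemma rows_gen (r : ℕ → ℕ)
    (h0 : r 0 = 0)
    (h1 : r 1 = 0)
    (h2 : r 2 = 6451040880022)
    (h3 : r 3 = 20392504726044)
    (h4 : r 4 = 41824391538066)
    (h5 : r 5 = 70746701316088)
    (h6 : r 6 = 107159434060110)
    (h7 : r 7 = 151062589770132)
    (h8 : r 8 = 202456168446154)
    (h9 : r 9 = 261340170088176)
    (h10 : r 10 = 327714594696198)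
    (h11 : r 11 = 401579442270220)
    (h12 : r 12 = 482934712810242) :
    ∑ q ∈ range 13, ∑ _o ∈ range (13 - q), r q = 7200650112376292 := by
  simp only [sum_const, card_range, smul_eq_mul, sum_range_succ, sum_range_zero]
  omega

lemma rows : ∑ q ∈ range 13, ∑ _o ∈ range (13 - q), ∑ p ∈ Ico 1 (1 + (q - 1)), pairs ww p q =
    7200650112376292 :=
  (sum_congr rfl fun q _ => sum_congr rfl fun _ _ => row_eq q).trans
    (rows_gen row rfl rfl row2 row3 row4 row5 row6 row7 row8 row9 row10 row11 row12)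

open Classical in
lemma neg : ∑ d ∈ univ.filter Dd, psi (cnt d.2) < 0 := by
  have h1 : ∀ c, 2 ^ 32 * (t2 c - 8) + (8 - t2 c) = ww c := fun c =>
    (T3 _ (Nat.mod_lt _ (by norm_num))).symm
  rw [red2]
  exact fin_gen _ (fun d => t2 (code d))
    ((sum_congr rfl fun d _ => h1 (code d)).trans ((tot_eq ww).trans rows))

end Pool.Agent.H.MP_6f0325_co
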