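import Pool.Agent.H.MP_6f0325_co.Defs

set_option autoImplicit false

namespace Pool.Agent.H.MP_6f0325_co

theorem row2 : row 2 = 6451040880022 := by decide +kernel

theorem row3 : row 3 = 20392504726044 := by decide +kernel

theorem row4 : row 4 = 41824391538066 := by decide +kernel

theorem row5 : row 5 = 70746701316088 := by decide +kernel

theorem row6 : row 6 = 107159434060110 := by decide +kernel

theorem row7 : row 7 = 151062589770132 := by decide +kernel

theorem row8 : row 8 = 202456168446154 := by decide +kernel

theorem row9 : row 9 = 261340170088176 := by decide +kernel

end Pool.Agent.H.MP_6f0325_co
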