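import Pool.Agent.H.MP_6f0325_co.R1

set_option autoImplicit false

namespace Pool.Agent.H.MP_6f0325_co

theorem row10 : row 10 = 327714594696198 := by decide +kernel

theorem row11 : row 11 = 401579442270220 := by decide +kernel

end Pool.Agent.H.MP_6f0325_co
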