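import Pool.Agent.H.MP_6f0325_co.Alg

set_option autoImplicit false

namespace Pool.Agent.H.MP_6f0325_co

open Finset

abbrev V := Fin 2 → Fin 13

def rk (v : V) : ℕ := v 0 + v 1

def Pr (c : V → Fin 14) : Prop := ∀ u v, c u = c v →
  ((u 0).val ≤ v 0 ∧ (u 1).val ≤ v 1) ∨ ((v 0).val ≤ u 0 ∧ (v 1).val ≤ u 1)

lemma pr_iff (c : V → Fin 14) : (∀ u v, ¬ u ≤ v → ¬ v ≤ u → c u ≠ c v) ↔ Pr c := by
  have h : ∀ u v : V, u ≤ v ↔ (u 0).val ≤ v 0 ∧ (u 1).val ≤ v 1 := fun u v => by
    simp [Pi.le_def, Fin.forall_fin_two]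
  simp only [h, Pr]
  exact forall₂_congr fun u v => by tauto

lemma ext2 {u v : V} (h0 : (u 0).val = v 0) (h1 : rk u = rk v) : u = v := by
  ext i
  unfold rk at h1
  fin_cases i
  · exact h0
  · show (u 1).val = v 1
    omega

def cell (r x : ℕ) : V := ![⟨min x 12, by omega⟩, ⟨min (r - x) 12, by omega⟩]

lemma cell0 (r x : ℕ) : (cell r x 0).val = min x 12 := rfl

lemma cell1 (r x : ℕ) : (cell r x 1).val = min (r - x) 12 := rfl

lemma rk_cell {r x : ℕ} (h1 : r - 12 ≤ x) (h2 : x ≤ min r 12) : rk (cell r x) = r := by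
  simp only [rk, cell0, cell1]
  omega

lemma cell_eq (v : V) : cell (rk v) (v 0) = v := by
  have := (v 0).2
  have := (v 1).2
  refine ext2 (by rw [cell0]; omega) (rk_cell ?_ ?_) <;> unfold rk <;> omega

lemma Pr.uniq {c : V → Fin 14} (h : Pr c) {u v : V} (h1 : c u = c v) (h2 : rk u = rk v) :
    u = v := by
  have := h u v h1
  refine ext2 ?_ h2
  unfold rk at h2
  omega

def sz (r : ℕ) : ℕ := min r 12 + 1 - (r - 12)

def Bg (c : V → Fin 14) (k r : ℕ) : Finset V := univ.filter fun v => rk v = r ∧ (c v).val < k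

lemma card_rk (r : ℕ) : (univ.filter fun v : V => rk v = r).card ≤ sz r := by
  rw [sz, ← Nat.card_Icc]
  refine card_le_card_of_injOn (fun v => (v 0).val) (fun v hv => ?_) fun u hu v hv e =>
    ext2 e (by simp at hu hv; omega)
  have := (v 0).2
  have := (v 1).2
  have h : rk v = r := by simpa using hv
  simp only [coe_Icc, Set.mem_Icc]
  unfold rk at h
  omega

lemma Bg_sub (c : V → Fin 14) (k r : ℕ) : Bg c k r ⊆ univ.filter fun v : V => rk v = r :=
  fun v hv => by simp [Bg] at hv ⊢; exact hv.1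

lemma Bg_inj {c : V → Fin 14} (h : Pr c) (k r : ℕ) :
    Set.InjOn (fun v => (c v).val) (Bg c k r) := fun u hu v hv e =>
  h.uniq (Fin.ext e) (by simp [Bg] at hu hv; omega)

lemma Bg_im (c : V → Fin 14) (k r : ℕ) : (Bg c k r).image (fun v => (c v).val) ⊆ range k := by
  intro i hi
  obtain ⟨v, hv, rfl⟩ := mem_image.1 hi
  simp [Bg] at hv ⊢
  exact hv.2

lemma Bg_le {c : V → Fin 14} (h : Pr c) (k r : ℕ) : (Bg c k r).card ≤ min k (sz r) := by
  refine le_min ?_ ((card_le_card (Bg_sub c k r)).trans (card_rk r))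
  rw [← card_image_of_injOn (Bg_inj h k r)]
  simpa using card_le_card (Bg_im c k r)

lemma rk_lt (v : V) : rk v < 25 := by
  have := (v 0).2
  have := (v 1).2
  unfold rk
  omega

lemma sum_cnt (c : V → Fin 14) (k : ℕ) :
    ∑ i ∈ range k, cnt c i = ∑ r ∈ range 25, (Bg c k r).card := by
  have h1 := card_eq_sum_card_fiberwise (s := univ.filter fun v : V => (c v).val < k)
    (t := range k) (f := fun v => (c v).val) (fun v hv => by simpa using hv)
  have h2 := card_eq_sum_card_fiberwise (s := univ.filter fun v : V => (c v).val < k)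
    (t := range 25) (f := rk) (fun v _ => by simpa using rk_lt v)
  refine Eq.trans (sum_congr rfl fun i hi => ?_) (h1.symm.trans (h2.trans
    (sum_congr rfl fun r _ => ?_)))
  · rw [cnt, filter_filter]
    congr 1
    ext v
    simp at hi ⊢
    omega
  · rw [Bg, filter_filter]
    simp only [and_comm]

lemma num : ∀ k ≤ 10, ∑ r ∈ range 25, min k (sz r) + k * k = 26 * k := by decide +kernel

lemma hb {c : V → Fin 14} (h : Pr c) : ∀ k ≤ 10, ∑ i ∈ range k, cnt c i + k * k ≤ 26 * k := by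
  intro k hk
  rw [sum_cnt, ← num k hk]
  exact Nat.add_le_add_right (sum_le_sum fun r _ => Bg_le h k r) _

def Good (c : V → Fin 14) : Prop := Pr c ∧ ∀ i < 10, cnt c i + 2 * i = 25

lemma Bg_card {c : V → Fin 14} (h : Good c) (r : ℕ) (hr : r < 25) :
    (Bg c 10 r).card = min 10 (sz r) := by
  refine (sum_eq_sum_iff_of_le (s := range 25) fun r _ => Bg_le h.1 10 r).1 ?_ r (mem_range.2 hr)
  have h1 := num 10 le_rfl
  have h2 : ∑ i ∈ range 10, (cnt c i + 2 * i) = ∑ i ∈ range 10, 25 :=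
    sum_congr rfl fun i hi => h.2 i (mem_range.1 hi)
  rw [sum_add_distrib, sum_cnt] at h2
  have h3 : ∑ i ∈ range 10, 2 * i = 90 := by decide
  simp only [sum_const, card_range, smul_eq_mul] at h2
  omega

lemma big {c : V → Fin 14} (h : Good c) (v : V) (hv : rk v ≤ 9 ∨ 15 ≤ rk v) : (c v).val < 10 := by
  have h1 := eq_of_subset_of_card_le (Bg_sub c 10 (rk v)) (by
    rw [Bg_card h _ (rk_lt v)]
    refine (card_rk _).trans ?_
    unfold sz
    omega)
  have h2 : v ∈ Bg c 10 (rk v) := by rw [h1]; simp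
  simpa [Bg] using h2

lemma ex {c : V → Fin 14} (h : Good c) (r i : ℕ) (h1 : 9 ≤ r) (h2 : r ≤ 15) (hi : i < 10) :
    ∃ v, rk v = r ∧ (c v).val = i := by
  have h3 := eq_of_subset_of_card_le (Bg_im c 10 r) (by
    rw [card_image_of_injOn (Bg_inj h.1 10 r), Bg_card h r (by omega), card_range]
    unfold sz
    omega)
  obtain ⟨v, hv, e⟩ := mem_image.1 (h3 ▸ mem_range.2 hi)
  exact ⟨v, by simp [Bg] at hv; exact hv.1, e⟩

def Hs (c : V → Fin 14) (r : ℕ) : Finset ℕ :=
  (Icc (r - 12) (min r 12)).filter fun x => 10 ≤ (c (cell r x)).val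

lemma Hs_card {c : V → Fin 14} (h : Good c) (r : ℕ) (h1 : 9 ≤ r) (h2 : r ≤ 15) :
    (Hs c r).card + 10 = sz r := by
  have h3 := card_filter_add_card_filter_not (s := Icc (r - 12) (min r 12))
    (fun x => 10 ≤ (c (cell r x)).val)
  have h4 : (Bg c 10 r).card =
      ((Icc (r - 12) (min r 12)).filter fun x => ¬ 10 ≤ (c (cell r x)).val).card := by
    refine card_bij (fun v _ => (v 0).val) (fun v hv => ?_) (fun u hu v hv e => ?_) fun x hx => ?_
    · have := (v 0).2
      have := (v 1).2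
      simp only [Bg, mem_filter, mem_univ, true_and, mem_Icc] at hv ⊢
      obtain ⟨rfl, hv⟩ := hv
      rw [cell_eq]
      unfold rk
      omega
    · exact ext2 e (by simp [Bg] at hu hv; omega)
    · simp only [mem_filter, mem_Icc] at hx
      refine ⟨cell r x, ?_, by rw [cell0]; omega⟩
      simp only [Bg, mem_filter, mem_univ, true_and]
      exact ⟨rk_cell hx.1.1 hx.1.2, by omega⟩
  rw [Bg_card h r (by omega)] at h4
  rw [Nat.card_Icc, ← h4] at h3
  unfold Hs sz at *
  omega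

end Pool.Agent.H.MP_6f0325_co
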