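import Pool.Agent.H.MP_6f0325_co.Str1

set_option autoImplicit false

namespace Pool.Agent.H.MP_6f0325_co

open Finset

def rkk : Fin 9 → ℕ := ![12, 12, 12, 11, 11, 10, 13, 13, 14]

def Srt (t : Fin 9 → ℕ) : Prop :=
  t 0 < t 1 ∧ t 1 < t 2 ∧ t 2 < 13 ∧ t 3 < t 4 ∧ t 4 < 12 ∧ t 5 < 11 ∧ 1 ≤ t 6 ∧ t 6 < t 7 ∧
    t 7 < 13 ∧ 2 ≤ t 8 ∧ t 8 < 13

def Inter (t : Fin 9 → ℕ) : Prop :=
  t 0 ≤ t 3 ∧ t 3 < t 1 ∧ t 1 ≤ t 4 ∧ t 4 < t 2 ∧ t 3 ≤ t 5 ∧ t 5 < t 4 ∧ t 0 < t 6 ∧ t 6 ≤ t 1 ∧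
    t 1 < t 7 ∧ t 7 ≤ t 2 ∧ t 6 < t 8 ∧ t 8 ≤ t 7 ∧ t 2 < 13

lemma Inter.srt {t : Fin 9 → ℕ} (h : Inter t) : Srt t := by
  unfold Inter at h
  unfold Srt
  omega

def skip (h x : ℕ) : ℕ := if h ≤ x then x + 1 else x

def E (t : Fin 9 → ℕ) (r k : ℕ) : ℕ :=
  if r = 10 then skip (t 5) k else if r = 11 then skip (t 4) (skip (t 3) k)
  else if r = 12 then skip (t 2) (skip (t 1) (skip (t 0) k))
  else if r = 13 then skip (t 7) (skip (t 6) (k + 1))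
  else if r = 14 then skip (t 8) (k + 2) else k + (r - 12)

def Hole (t : Fin 9 → ℕ) (r x : ℕ) : Prop := ∃ k, rkk k = r ∧ t k = x

lemma hole_iff (t : Fin 9 → ℕ) (r x : ℕ) : Hole t r x ↔
    (r = 12 ∧ (t 0 = x ∨ t 1 = x ∨ t 2 = x)) ∨ (r = 11 ∧ (t 3 = x ∨ t 4 = x)) ∨
      (r = 10 ∧ t 5 = x) ∨ (r = 13 ∧ (t 6 = x ∨ t 7 = x)) ∨ (r = 14 ∧ t 8 = x) := by
  constructor
  · rintro ⟨k, rfl, rfl⟩
    fin_cases k <;> simp [rkk]
  · rintro (⟨rfl, h | h | h⟩ | ⟨rfl, h | h⟩ | ⟨rfl, h⟩ | ⟨rfl, h | h⟩ | ⟨rfl, h⟩) <;>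
      exact ⟨_, rfl, h⟩

lemma skip_spec (h x : ℕ) : (h ≤ x ∧ skip h x = x + 1) ∨ (x < h ∧ skip h x = x) := by
  unfold skip
  split_ifs <;> omega

lemma skip_lt (h : ℕ) {x y : ℕ} (e : x < y) : skip h x < skip h y := by
  unfold skip
  split_ifs <;> omega

lemma skip_sur {h x : ℕ} (e : h ≠ x) :
    ∃ y, skip h y = x ∧ ((y = x ∧ x < h) ∨ (y + 1 = x ∧ h < x)) := by
  by_cases h1 : x < h
  · exact ⟨x, if_neg (by omega), by omega⟩
  · exact ⟨x - 1, by rw [skip, if_pos (by omega)]; omega, by omega⟩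

lemma E_lt (t : Fin 9 → ℕ) (r : ℕ) {k l : ℕ} (h : k < l) : E t r k < E t r l := by
  unfold E
  split_ifs
  · exact skip_lt _ h
  · exact skip_lt _ (skip_lt _ h)
  · exact skip_lt _ (skip_lt _ (skip_lt _ h))
  · exact skip_lt _ (skip_lt _ (by omega))
  · exact skip_lt _ (by omega)
  · omega

lemma E1 {t : Fin 9 → ℕ} (ht : Srt t) {r k : ℕ} (h1 : 9 ≤ r) (h2 : r ≤ 15) (hk : k < 10) :
    r - 12 ≤ E t r k ∧ E t r k ≤ min r 12 ∧ ¬ Hole t r (E t r k) := by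
  unfold Srt at ht
  rw [hole_iff]
  interval_cases r <;> simp only [E, skip] <;> norm_num <;> (try split_ifs) <;> omega

lemma E2 {t : Fin 9 → ℕ} (ht : Srt t) {r x : ℕ} (h1 : 9 ≤ r) (h2 : r ≤ 15) (h3 : r - 12 ≤ x)
    (h4 : x ≤ min r 12) (h5 : ¬ Hole t r x) : ∃ k < 10, E t r k = x := by
  unfold Srt at ht
  rw [hole_iff] at h5
  interval_cases r
  · exact ⟨x, by omega, rfl⟩
  · obtain ⟨y, e, h⟩ := skip_sur (show t 5 ≠ x by omega)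
    exact ⟨y, by omega, e⟩
  · obtain ⟨y, e, h⟩ := skip_sur (show t 4 ≠ x by omega)
    obtain ⟨z, e', h'⟩ := skip_sur (show t 3 ≠ y by omega)
    exact ⟨z, by omega, by rw [← e, ← e']; rfl⟩
  · obtain ⟨y, e, h⟩ := skip_sur (show t 2 ≠ x by omega)
    obtain ⟨z, e', h'⟩ := skip_sur (show t 1 ≠ y by omega)
    obtain ⟨w, e'', h''⟩ := skip_sur (show t 0 ≠ z by omega)
    exact ⟨w, by omega, by rw [← e, ← e', ← e'']; rfl⟩
  · obtain ⟨y, e, h⟩ := skip_sur (show t 7 ≠ x by omega)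
    obtain ⟨z, e', h'⟩ := skip_sur (show t 6 ≠ y by omega)
    obtain ⟨w, rfl⟩ : ∃ w, z = w + 1 := ⟨z - 1, by omega⟩
    exact ⟨w, by omega, by rw [← e, ← e']; rfl⟩
  · obtain ⟨y, e, h⟩ := skip_sur (show t 8 ≠ x by omega)
    obtain ⟨w, rfl⟩ : ∃ w, y = w + 2 := ⟨y - 2, by omega⟩
    exact ⟨w, by omega, e⟩
  · exact ⟨x - 3, by omega, by simp only [E]; norm_num; omega⟩

lemma E4 {t : Fin 9 → ℕ} (ht : Inter t) {r : ℕ} (k : ℕ) (h1 : 9 ≤ r) (h2 : r < 15) (_hk : k < 10) :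
    E t r k ≤ E t (r + 1) k ∧ E t (r + 1) k ≤ E t r k + 1 := by
  unfold Inter at ht
  interval_cases r <;> simp only [E, skip] <;> norm_num <;> (try split_ifs) <;> omega

lemma E4' {t : Fin 9 → ℕ} (ht : Inter t) {r : ℕ} (k : ℕ) (h1 : 9 ≤ r) (hk : k < 10) (s : ℕ)
    (h2 : r + s ≤ 15) : E t r k ≤ E t (r + s) k ∧ E t (r + s) k ≤ E t r k + s := by
  induction s with
  | zero => simp
  | succ s ih =>
    have := ih (by omega)
    have := E4 ht (r := r + s) k (by omega) (by omega) hk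
    rw [← add_assoc]
    omega

set_option synthInstance.maxSize 4096 in
lemma L1 : ∀ a < 11, ∀ b2 < 12, ∀ b1 < b2, (∀ k < 10, skip a k ≤ skip b2 (skip b1 k) ∧
    skip b2 (skip b1 k) ≤ skip a k + 1) → b1 ≤ a ∧ a < b2 := by decide +kernel

lemma L2 : ∀ b2 < 12, ∀ b1 < b2, ∀ c3 < 13, ∀ c2 < c3, ∀ c1 < c2,
    (∀ k < 10, skip b2 (skip b1 k) ≤ skip c3 (skip c2 (skip c1 k)) ∧
      skip c3 (skip c2 (skip c1 k)) ≤ skip b2 (skip b1 k) + 1) →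
    c1 ≤ b1 ∧ b1 < c2 ∧ c2 ≤ b2 ∧ b2 < c3 := by
  intro b2 _ b1 _ c3 _ c2 _ c1 _ h
  refine ⟨?_, ?_, ?_, ?_⟩ <;> by_contra
  · have := h (b1) (by omega)
    simp only [skip] at this
    split_ifs at this <;> omega
  · have := h (c2 - 1) (by omega)
    simp only [skip] at this
    split_ifs at this <;> omega
  · have := h (b2 - 1) (by omega)
    simp only [skip] at this
    split_ifs at this <;> omega
  · have := h (c3 - 2) (by omega)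
    simp only [skip] at this
    split_ifs at this <;> omega

lemma L3 : ∀ b2 < 13, ∀ b1 < b2, 1 ≤ b1 → ∀ c3 < 13, ∀ c2 < c3, ∀ c1 < c2,
    (∀ k < 10, skip c3 (skip c2 (skip c1 k)) ≤ skip b2 (skip b1 (k + 1)) ∧
      skip b2 (skip b1 (k + 1)) ≤ skip c3 (skip c2 (skip c1 k)) + 1) →
    c1 < b1 ∧ b1 ≤ c2 ∧ c2 < b2 ∧ b2 ≤ c3 := by
  intro b2 _ b1 _ _ c3 _ c2 _ c1 _ h
  refine ⟨?_, ?_, ?_, ?_⟩ <;> by_contra
  · have := h (b1 - 1) (by omega)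
    simp only [skip] at this
    split_ifs at this <;> omega
  · have := h (c2 - 1) (by omega)
    simp only [skip] at this
    split_ifs at this <;> omega
  · have := h (b2 - 2) (by omega)
    simp only [skip] at this
    split_ifs at this <;> omega
  · have := h (c3 - 2) (by omega)
    simp only [skip] at this
    split_ifs at this <;> omega

set_option synthInstance.maxSize 4096 in
lemma L4 : ∀ a < 13, 2 ≤ a → ∀ b2 < 13, ∀ b1 < b2, 1 ≤ b1 →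
    (∀ k < 10, skip b2 (skip b1 (k + 1)) ≤ skip a (k + 2) ∧
      skip a (k + 2) ≤ skip b2 (skip b1 (k + 1)) + 1) → b1 < a ∧ a ≤ b2 := by decide +kernel

lemma E5 {t : Fin 9 → ℕ} (ht : Srt t) (h : ∀ r, 9 ≤ r → r < 15 → ∀ k < 10,
    E t r k ≤ E t (r + 1) k ∧ E t (r + 1) k ≤ E t r k + 1) : Inter t := by
  obtain ⟨a, b, c, d, e, f, g, i, j, k, l⟩ := ht
  have h1 := L1 _ f _ e _ d (h 10 (by omega) (by omega))
  have h2 := L2 _ e _ d _ c _ b _ a (h 11 (by omega) (by omega))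
  have h3 := L3 _ j _ i g _ c _ b _ a (h 12 (by omega) (by omega))
  have h4 := L4 _ l k _ j _ i g (h 13 (by omega) (by omega))
  unfold Inter
  omega

end Pool.Agent.H.MP_6f0325_co
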