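import Pool.Agent.H.MP_6f0325_co.Str2

set_option autoImplicit false

namespace Pool.Agent.H.MP_6f0325_co

open Finset

def Hl (c : V → Fin 14) (t : Fin 9 → ℕ) : Prop := ∀ v, 10 ≤ (c v).val ↔ Hole t (rk v) (v 0)

lemma c9 {k : ℕ} (hk : k < 10) : rk (cell 9 k) = 9 ∧ (cell 9 k 0).val = k :=
  ⟨rk_cell (by omega) (by omega), by rw [cell0]; omega⟩

lemma cE {t : Fin 9 → ℕ} (ht : Srt t) {r k : ℕ} (h1 : 9 ≤ r) (h2 : r ≤ 15) (hk : k < 10) :
    rk (cell r (E t r k)) = r ∧ (cell r (E t r k) 0).val = E t r k := by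
  have := E1 ht h1 h2 hk
  exact ⟨rk_cell this.1 this.2.1, by rw [cell0]; omega⟩

lemma struct {c : V → Fin 14} (h : Good c) {t : Fin 9 → ℕ} (ht : Srt t) (hl : Hl c t) :
    (∀ r, 9 ≤ r → r ≤ 15 → ∀ k < 10, c (cell r (E t r k)) = c (cell 9 k)) ∧ Inter t := by
  have h0 : ∀ (k : Fin 10) (r : ℕ), ∃ v, 9 ≤ r → r ≤ 15 → rk v = r ∧ c v = c (cell 9 k) := by
    intro k r
    by_cases hr : 9 ≤ r ∧ r ≤ 15
    · obtain ⟨v, h1, h2⟩ := ex h r _ hr.1 hr.2 (big h (cell 9 k) (Or.inl (c9 k.2).1.le))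
      exact ⟨v, fun _ _ => ⟨h1, Fin.ext h2⟩⟩
    · exact ⟨0, fun h1 h2 => absurd ⟨h1, h2⟩ hr⟩
  choose w hw using h0
  have step : ∀ k r, 9 ≤ r → r < 15 →
      (w k r 0).val ≤ w k (r + 1) 0 ∧ (w k (r + 1) 0).val ≤ w k r 0 + 1 := by
    intro k r h1 h2
    have a := hw k r h1 (by omega)
    have b := hw k (r + 1) (by omega) (by omega)
    have := h.1 _ _ (a.2.trans b.2.symm)
    have a1 := a.1
    have b1 := b.1
    unfold rk at a1 b1
    omega
  have mono : ∀ r, 9 ≤ r → r ≤ 15 → StrictMono fun k => (w k r 0).val := by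
    intro r hr
    induction r, hr using Nat.le_induction with
    | base =>
      intro _ k l hkl
      have e : ∀ k : Fin 10, w k 9 = cell 9 k := fun k => h.1.uniq (hw k 9 le_rfl (by omega)).2
        ((hw k 9 le_rfl (by omega)).1.trans (c9 k.2).1.symm)
      simp only [e, (c9 k.2).2, (c9 l.2).2]
      exact hkl
    | succ r hr ih =>
      intro h2 k l hkl
      have h3 : (w k r 0).val < w l r 0 := ih (by omega) hkl
      have h4 := step k r hr h2
      have h5 := step l r hr h2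
      show (w k (r + 1) 0).val < w l (r + 1) 0
      refine lt_of_le_of_ne (by omega) fun e => ?_
      have a := hw k (r + 1) (by omega) h2
      have b := hw l (r + 1) (by omega) h2
      have h6 := h.1.uniq (a.2.symm.trans ((congrArg c (ext2 e (a.1.trans b.1.symm))).trans b.2))
        ((c9 k.2).1.trans (c9 l.2).1.symm)
      have h7 := (c9 k.2).2
      rw [h6, (c9 l.2).2] at h7
      exact hkl.ne' (Fin.ext h7)
  have eq : ∀ r, 9 ≤ r → r ≤ 15 → ∀ k : Fin 10, (w k r 0).val = E t r k := by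
    intro r h1 h2
    refine congrFun (((mono r h1 h2).range_inj (g := fun k : Fin 10 => E t r k)
      fun k l hkl => E_lt t r hkl).1 (Set.Subset.antisymm ?_ ?_))
    · rintro _ ⟨k, rfl⟩
      have a := hw k r h1 h2
      have b := big h (cell 9 k) (Or.inl (c9 k.2).1.le)
      have a1 := a.1
      have := (w k r 0).2
      have := (w k r 1).2
      unfold rk at a1
      obtain ⟨l, hl, e⟩ := E2 ht (x := w k r 0) h1 h2 (by omega) (by omega) (by
        have := hl (w k r)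
        rw [a.1, a.2] at this
        rw [← this]
        omega)
      exact ⟨⟨l, hl⟩, e⟩
    · rintro _ ⟨k, rfl⟩
      have a := cE ht h1 h2 k.2
      have b := (hl (cell r (E t r k))).not.2 (by rw [a.1, a.2]; exact (E1 ht h1 h2 k.2).2.2)
      obtain ⟨u, hu, e⟩ := ex h 9 _ le_rfl (by omega) (not_le.1 b)
      have hu0 : (u 0).val < 10 := by unfold rk at hu; omega
      have e2 := hw ⟨u 0, hu0⟩ r h1 h2
      have e3 : cell 9 (u 0) = u := by rw [← hu, cell_eq]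
      refine ⟨⟨u 0, hu0⟩, ?_⟩
      simp only
      rw [h.1.uniq (e2.2.trans ((congrArg c e3).trans (Fin.ext e))) (e2.1.trans a.1.symm), a.2]
  refine ⟨fun r h1 h2 k hk => ?_, E5 ht fun r h1 h2 k hk => ?_⟩
  · have a := hw ⟨k, hk⟩ r h1 h2
    have b := cell_eq (w ⟨k, hk⟩ r)
    rw [a.1, eq r h1 h2 ⟨k, hk⟩] at b
    exact (congrArg c b).trans a.2
  · rw [← eq r h1 h2.le ⟨k, hk⟩, ← eq (r + 1) (by omega) h2 ⟨k, hk⟩]
    exact step _ r h1 h2

lemma enum (s : Finset ℕ) {n : ℕ} (h : s.card = n) :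
    ∃ f : Fin n → ℕ, StrictMono f ∧ ∀ z, z ∈ s ↔ ∃ i, f i = z :=
  ⟨s.orderEmbOfFin h, (s.orderEmbOfFin h).strictMono, fun z => by
    rw [← mem_coe, ← range_orderEmbOfFin s h]; rfl⟩

lemma exists_t {c : V → Fin 14} (h : Good c) : ∃ t, Srt t ∧ Hl c t := by
  obtain ⟨a, -, ha⟩ := enum (n := 1) (Hs c 10) (by have := Hs_card h 10; unfold sz at this; omega)
  obtain ⟨b, b1, hb⟩ := enum (n := 2) (Hs c 11) (by have := Hs_card h 11; unfold sz at this; omega)
  obtain ⟨m, m1, hm⟩ := enum (n := 3) (Hs c 12) (by have := Hs_card h 12; unfold sz at this; omega)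
  obtain ⟨d, d1, hd⟩ := enum (n := 2) (Hs c 13) (by have := Hs_card h 13; unfold sz at this; omega)
  obtain ⟨e, -, he⟩ := enum (n := 1) (Hs c 14) (by have := Hs_card h 14; unfold sz at this; omega)
  have bd : ∀ r x, x ∈ Hs c r → r - 12 ≤ x ∧ x ≤ min r 12 := fun r x hx =>
    mem_Icc.1 (mem_filter.1 hx).1
  refine ⟨![m 0, m 1, m 2, b 0, b 1, a 0, d 0, d 1, e 0], ?_, fun v => ?_⟩
  · have := bd _ _ ((ha _).2 ⟨0, rfl⟩)
    have := bd _ _ ((hb _).2 ⟨1, rfl⟩)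
    have := bd _ _ ((hm _).2 ⟨2, rfl⟩)
    have := bd _ _ ((hd _).2 ⟨0, rfl⟩)
    have := bd _ _ ((hd _).2 ⟨1, rfl⟩)
    have := bd _ _ ((he _).2 ⟨0, rfl⟩)
    have := b1 (show (0 : Fin 2) < 1 by decide)
    have := d1 (show (0 : Fin 2) < 1 by decide)
    have := m1 (show (0 : Fin 3) < 1 by decide)
    have := m1 (show (1 : Fin 3) < 2 by decide)
    show m 0 < m 1 ∧ m 1 < m 2 ∧ m 2 < 13 ∧ b 0 < b 1 ∧ b 1 < 12 ∧ a 0 < 11 ∧ 1 ≤ d 0 ∧ d 0 < d 1 ∧
      d 1 < 13 ∧ 2 ≤ e 0 ∧ e 0 < 13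
    omega
  · rw [hole_iff]
    by_cases hr : rk v ≤ 9 ∨ 15 ≤ rk v
    · have := big h v hr
      omega
    have h1 : 10 ≤ (c v).val ↔ (v 0).val ∈ Hs c (rk v) := by
      have := (v 0).2
      have := (v 1).2
      rw [Hs, mem_filter, cell_eq, mem_Icc]
      unfold rk
      omega
    rw [h1]
    generalize rk v = r at hr
    obtain rfl | rfl | rfl | rfl | rfl : r = 10 ∨ r = 11 ∨ r = 12 ∨ r = 13 ∨ r = 14 := by omega
    · simp [ha]
    · simp [hb]
    · simp [hm, Fin.exists_fin_succ]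
    · simp [hd]
    · simp [he]

lemma hc {t : Fin 9 → ℕ} (ht : Srt t) (k : Fin 9) :
    rkk k - 12 ≤ t k ∧ t k ≤ min (rkk k) 12 ∧ 10 ≤ rkk k ∧ rkk k ≤ 14 := by
  unfold Srt at ht
  fin_cases k <;> simp [rkk] <;> omega

lemma hcell {t : Fin 9 → ℕ} (ht : Srt t) (k : Fin 9) :
    rk (cell (rkk k) (t k)) = rkk k ∧ (cell (rkk k) (t k) 0).val = t k ∧
      (cell (rkk k) (t k) 1).val = rkk k - t k := by
  have := hc ht k
  exact ⟨rk_cell this.1 this.2.1, by rw [cell0]; omega, by rw [cell1]; omega⟩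

lemma hinj {t : Fin 9 → ℕ} (ht : Srt t) {k l : Fin 9} (h1 : rkk k = rkk l) (h2 : t k = t l) :
    k = l := by
  unfold Srt at ht
  fin_cases k <;> fin_cases l <;> simp [rkk] at h1 h2 ⊢ <;> omega

lemma t_uniq {c : V → Fin 14} {t s : Fin 9 → ℕ} (ht : Srt t) (hs : Srt s) (h1 : Hl c t)
    (h2 : Hl c s) : t = s := by
  have key : ∀ {t s : Fin 9 → ℕ}, Srt t → Hl c t → Hl c s → ∀ k, Hole s (rkk k) (t k) := by
    intro t s ht h1 h2 k
    have a := hcell ht k
    have := (h2 (cell (rkk k) (t k))).1 ((h1 _).2 ⟨k, a.1.symm, a.2.1.symm⟩)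
    rwa [a.1, a.2.1] at this
  have a := key ht h1 h2
  have b := key hs h2 h1
  simp only [hole_iff, Fin.forall_fin_succ, rkk] at a b
  simp at a b
  unfold Srt at ht hs
  ext k
  fin_cases k <;> simp <;> omega

end Pool.Agent.H.MP_6f0325_co
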