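import Pool.Agent.H.MP_6f0325_co.Str3

set_option autoImplicit false
set_option linter.constructorNameAsVariable false

namespace Pool.Agent.H.MP_6f0325_co

open Finset Classical

def PD (t col : Fin 9 → ℕ) : Prop := ∀ k l, col k = col l →
  (t k ≤ t l ∧ rkk k - t k ≤ rkk l - t l) ∨ (t l ≤ t k ∧ rkk l - t l ≤ rkk k - t k)

abbrev DT := (Fin 9 → Fin 13) × (Fin 9 → Fin 4)

def tt (d : DT) : Fin 9 → ℕ := fun k => d.1 k

def Dd (d : DT) : Prop := Inter (tt d) ∧ PD (tt d) (fun k => d.2 k)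

def R (c : V → Fin 14) (d : DT) : Prop :=
  Hl c (tt d) ∧ ∀ k, (c (cell (rkk k) (tt d k))).val = d.2 k + 10

lemma exu {c : V → Fin 14} (h : Good c) : ∃! d, Dd d ∧ R c d := by
  obtain ⟨t, ht, hl⟩ := exists_t h
  have h1 : ∀ k, 10 ≤ (c (cell (rkk k) (t k))).val := fun k =>
    (hl _).2 ⟨k, (hcell ht k).1.symm, (hcell ht k).2.1.symm⟩
  refine ⟨(fun k => ⟨t k, by have := hc ht k; omega⟩,
    fun k => ⟨(c (cell (rkk k) (t k))).val - 10, by omega⟩),
    ⟨⟨(struct h ht hl).2, fun k l e => ?_⟩, hl, fun k => ?_⟩, fun d hd => ?_⟩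
  · have a := h1 k
    have b := h1 l
    have := h.1 (cell (rkk k) (t k)) (cell (rkk l) (t l)) (Fin.ext (by simp only at e; omega))
    rwa [(hcell ht k).2.1, (hcell ht k).2.2, (hcell ht l).2.1, (hcell ht l).2.2] at this
  · have := h1 k
    show (c (cell (rkk k) (t k))).val = (c (cell (rkk k) (t k))).val - 10 + 10
    omega
  · obtain rfl := t_uniq ht hd.1.1.srt hl hd.2.1
    ext k
    · rfl
    · have := hd.2.2 k
      simp only
      omega

lemma cnt_small {c : V → Fin 14} {d : DT} (hd : Dd d) (h : R c d) (i : ℕ) :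
    cnt c (i + 10) = cnt d.2 i := by
  have ht := hd.1.srt
  refine (card_bij (fun k _ => cell (rkk k) (tt d k)) (fun k hk => ?_) (fun k _ l _ e => ?_)
    fun v hv => ?_).symm
  · simp only [mem_filter, mem_univ, true_and] at hk ⊢
    rw [h.2, hk]
  · have a := hcell ht k
    have b := hcell ht l
    rw [e] at a
    exact hinj ht (a.1.symm.trans b.1) (a.2.1.symm.trans b.2.1)
  · simp only [mem_filter, mem_univ, true_and] at hv ⊢
    obtain ⟨k, h1, h2⟩ := (h.1 v).1 (by omega)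
    have e : cell (rkk k) (tt d k) = v := by rw [h1, h2, cell_eq]
    have := h.2 k
    rw [e] at this
    exact ⟨k, by omega, e⟩

noncomputable def tr (c : V → Fin 14) (d : DT) (v : V) : Fin 14 :=
  if h : ∃ k, rkk k = rk v ∧ tt d k = v 0 then ⟨d.2 h.choose + 10, by omega⟩
  else if h : ∃ k < 10, 9 ≤ rk v ∧ rk v ≤ 15 ∧ E (tt d) (rk v) k = v 0 then c (cell 9 h.choose)
  else c v

lemma tr1 (c : V → Fin 14) {d : DT} (ht : Srt (tt d)) (k : Fin 9) :
    (tr c d (cell (rkk k) (tt d k))).val = d.2 k + 10 := by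
  have a := hcell ht k
  have h : ∃ l, rkk l = rk (cell (rkk k) (tt d k)) ∧ tt d l = cell (rkk k) (tt d k) 0 :=
    ⟨k, a.1.symm, a.2.1.symm⟩
  rw [tr, dif_pos h]
  show (d.2 h.choose).val + 10 = _
  rw [hinj ht (h.choose_spec.1.trans a.1) (h.choose_spec.2.trans a.2.1)]

lemma tr2 (c : V → Fin 14) {d : DT} (ht : Srt (tt d)) {r k : ℕ} (h1 : 9 ≤ r) (h2 : r ≤ 15)
    (hk : k < 10) : tr c d (cell r (E (tt d) r k)) = c (cell 9 k) := by
  have a := cE ht h1 h2 hk
  have h : ∃ l < 10, 9 ≤ rk (cell r (E (tt d) r k)) ∧ rk (cell r (E (tt d) r k)) ≤ 15 ∧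
      E (tt d) (rk (cell r (E (tt d) r k))) l = cell r (E (tt d) r k) 0 :=
    ⟨k, hk, by omega, by omega, by rw [a.1, a.2]⟩
  rw [tr, dif_neg (by rw [a.1, a.2]; exact (E1 ht h1 h2 hk).2.2), dif_pos h]
  have h3 := h.choose_spec.2.2.2
  generalize h.choose = l at h3
  rw [a.1, a.2] at h3
  have hm : StrictMono (E (tt d) r) := fun _ _ => E_lt _ r
  rw [hm.injective h3]

lemma tr3 (c : V → Fin 14) {d : DT} (ht : Srt (tt d)) {v : V} (h : rk v < 9 ∨ 15 < rk v) :
    tr c d v = c v := by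
  rw [tr, dif_neg, dif_neg]
  · rintro ⟨k, -, h1, h2, -⟩
    omega
  · rintro ⟨k, h1, -⟩
    have := hc ht k
    omega

lemma tri {t : Fin 9 → ℕ} (ht : Srt t) (v : V) : (∃ k, cell (rkk k) (t k) = v) ∨
    (∃ r k, 9 ≤ r ∧ r ≤ 15 ∧ k < 10 ∧ cell r (E t r k) = v) ∨ rk v < 9 ∨ 15 < rk v := by
  by_cases h : Hole t (rk v) (v 0)
  · obtain ⟨k, h1, h2⟩ := h
    exact Or.inl ⟨k, by rw [h1, h2, cell_eq]⟩
  by_cases h1 : rk v < 9 ∨ 15 < rk v
  · exact Or.inr (Or.inr h1)
  have := (v 0).2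
  have := (v 1).2
  obtain ⟨k, hk, e⟩ := E2 ht (by omega) (by omega) (by unfold rk; omega) (by unfold rk; omega) h
  exact Or.inr (Or.inl ⟨rk v, k, by omega, by omega, hk, by rw [e, cell_eq]⟩)

section
variable {c : V → Fin 14} {d e : DT} (h : Good c) (hd : Dd d) (he : Dd e) (hr : R c d)
include h he

lemma tr_big (v : V) (hv : ¬ ∃ k, cell (rkk k) (tt e k) = v) : (tr c e v).val < 10 := by
  rcases tri he.1.srt v with h1 | ⟨r, k, h1, h2, hk, rfl⟩ | h1
  · exact absurd h1 hv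
  · rw [tr2 c he.1.srt h1 h2 hk]
    exact big h _ (Or.inl (c9 hk).1.le)
  · rw [tr3 c he.1.srt h1]
    exact big h _ (by omega)

lemma tr_R : R (tr c e) e := by
  refine ⟨fun v => ⟨fun h1 => ?_, ?_⟩, tr1 c he.1.srt⟩
  · by_contra h2
    refine absurd (tr_big h he v ?_) (by omega)
    rintro ⟨k, rfl⟩
    exact h2 ⟨k, (hcell he.1.srt k).1.symm, (hcell he.1.srt k).2.1.symm⟩
  · rintro ⟨k, h1, h2⟩
    have := tr1 c he.1.srt k
    rw [h1, h2, cell_eq] at this
    omega

include hd hr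

lemma tr_band {r k : ℕ} (h1 : 9 ≤ r) (h2 : r ≤ 15) (hk : k < 10) (u : V)
    (hu : rk u < 9 ∨ 15 < rk u) (e1 : c u = c (cell 9 k)) :
    ((u 0).val ≤ cell r (E (tt e) r k) 0 ∧ (u 1).val ≤ cell r (E (tt e) r k) 1) ∨
      ((cell r (E (tt e) r k) 0).val ≤ u 0 ∧ (cell r (E (tt e) r k) 1).val ≤ u 1) := by
  have a := cE he.1.srt h1 h2 hk
  have b := h.1 _ _ e1
  have b' := h.1 _ _ (e1.trans ((struct h hd.1.srt hr.1).1 15 (by omega) le_rfl k hk).symm)
  have s1 := E4' he.1 k le_rfl hk (r - 9) (by omega)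
  have s2 := E4' he.1 k h1 hk (15 - r) (by omega)
  rw [show 9 + (r - 9) = r by omega] at s1
  rw [show r + (15 - r) = 15 by omega] at s2
  have e9 : E (tt e) 9 k = k := rfl
  have e15 : E (tt e) 15 k = k + 3 := rfl
  have e16 : E (tt d) 15 k = k + 3 := rfl
  simp only [e16, cell0, cell1] at b b'
  unfold rk at a hu
  omega

lemma tr_pr : Pr (tr c e) := by
  have ht := he.1.srt
  intro u v huv
  by_cases hu : ∃ k, cell (rkk k) (tt e k) = u
  · obtain ⟨k, rfl⟩ := hu
    have a := tr1 c ht k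
    by_cases hv : ∃ l, cell (rkk l) (tt e l) = v
    · obtain ⟨l, rfl⟩ := hv
      rw [huv, tr1 c ht l] at a
      rw [(hcell ht k).2.1, (hcell ht k).2.2, (hcell ht l).2.1, (hcell ht l).2.2]
      exact he.2 k l (by simp only; omega)
    · have := tr_big h he v hv
      rw [← huv] at this
      omega
  by_cases hv : ∃ l, cell (rkk l) (tt e l) = v
  · obtain ⟨l, rfl⟩ := hv
    have := tr_big h he u hu
    rw [huv, tr1 c ht l] at this
    omega
  rcases (tri ht u).resolve_left hu with ⟨r, k, h1, h2, hk, rfl⟩ | h1 <;>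
    rcases (tri ht v).resolve_left hv with ⟨s, l, h3, h4, hl, rfl⟩ | h3
  · rw [tr2 c ht h1 h2 hk, tr2 c ht h3 h4 hl] at huv
    have a := (c9 hk).2
    rw [h.1.uniq huv ((c9 hk).1.trans (c9 hl).1.symm), (c9 hl).2] at a
    subst a
    have a := cE ht h1 h2 hk
    have b := cE ht h3 h4 hk
    unfold rk at a b
    rcases le_total r s with h5 | h5
    · have := E4' he.1 l h1 hk (s - r) (by omega)
      rw [show r + (s - r) = s by omega] at this
      omega
    · have := E4' he.1 l h3 hk (r - s) (by omega)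
      rw [show s + (r - s) = r by omega] at this
      omega
  · rw [tr2 c ht h1 h2 hk, tr3 c ht h3] at huv
    exact (tr_band h hd he hr h1 h2 hk v h3 huv.symm).symm
  · rw [tr2 c ht h3 h4 hl, tr3 c ht h1] at huv
    exact tr_band h hd he hr h3 h4 hl u h1 huv
  · rw [tr3 c ht h1, tr3 c ht h3] at huv
    exact h.1 u v huv

lemma tr_good : Good (tr c e) := by
  refine ⟨tr_pr h hd he hr, fun i hi => ?_⟩
  rw [← h.2 i hi]
  congr 1
  have f : ∀ c : V → Fin 14, cnt c i =
      ∑ r ∈ range 25, (univ.filter fun v => (c v).val = i ∧ rk v = r).card := fun c => by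
    rw [cnt, card_eq_sum_card_fiberwise (t := range 25) (f := rk)
      (fun v _ => by simpa using rk_lt v)]
    simp only [filter_filter]
  have g : ∀ c : V → Fin 14, Pr c → ∀ r, (∃ v, rk v = r ∧ (c v).val = i) →
      (univ.filter fun v => (c v).val = i ∧ rk v = r).card = 1 := by
    rintro c hc r ⟨v, h1, h2⟩
    refine card_eq_one.2 ⟨v, eq_singleton_iff_unique_mem.2 ⟨by simp [h1, h2], fun u hu => ?_⟩⟩
    simp only [mem_filter, mem_univ, true_and] at hu
    exact hc.uniq (Fin.ext (by omega)) (by omega)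
  rw [f, f]
  refine sum_congr rfl fun r _ => ?_
  by_cases h1 : r < 9 ∨ 15 < r
  · refine congrArg _ (filter_congr fun v _ => and_congr_left fun h2 => ?_)
    rw [tr3 c he.1.srt (by omega)]
  · rw [g c h.1 r (ex h r i (by omega) (by omega) hi), g _ (tr_pr h hd he hr)]
    obtain ⟨u, h2, h3⟩ := ex h 9 i le_rfl (by omega) hi
    have h4 : (u 0).val < 10 := by unfold rk at h2; omega
    refine ⟨_, (cE he.1.srt (by omega) (by omega) h4).1, ?_⟩
    rw [tr2 c he.1.srt (by omega) (by omega) h4, ← h2, cell_eq, h3]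

end

noncomputable def fib (d : DT) : ℕ := (univ.filter fun c => Good c ∧ R c d).card

lemma card_inj {α : Type} [Fintype α] (P Q : α → Prop) (f : α → α) (h1 : ∀ a, P a → Q (f a))
    (h2 : ∀ a, P a → ∀ b, P b → f a = f b → a = b) :
    (univ.filter P).card ≤ (univ.filter Q).card :=
  card_le_card_of_injOn f (fun a ha => by simpa using h1 a (by simpa using ha))
    fun a ha b hb => h2 a (by simpa using ha) b (by simpa using hb)

lemma fib_le {d e : DT} (hd : Dd d) (he : Dd e) : fib d ≤ fib e := by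
  unfold fib
  convert card_inj (fun c => Good c ∧ R c d) (fun c => Good c ∧ R c e) (fun c => tr c e)
    (fun c h => ⟨tr_good h.1 hd he h.2, tr_R h.1 he⟩) fun c h1 c' h2 h' => ?_
  · ext v
    rcases tri hd.1.srt v with ⟨k, rfl⟩ | ⟨r, k, h3, h4, hk, rfl⟩ | h3
    · rw [h1.2.2, h2.2.2]
    · rw [(struct h1.1 hd.1.srt h1.2.1).1 r h3 h4 k hk, (struct h2.1 hd.1.srt h2.2.1).1 r h3 h4 k hk,
        ← tr2 c he.1.srt h3 h4 hk, ← tr2 c' he.1.srt h3 h4 hk, h']
    · rw [← tr3 c he.1.srt h3, ← tr3 c' he.1.srt h3, h']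

lemma card_ps {α : Type} [Fintype α] (P : α → Prop) (a : α) (h : P a) :
    0 < (univ.filter P).card := card_pos.2 ⟨a, by simpa using h⟩

lemma fib_pos {c : V → Fin 14} {d : DT} (h : Good c) (h1 : R c d) : 0 < fib d := by
  unfold fib
  convert card_ps (fun c => Good c ∧ R c d) c ⟨h, h1⟩

def c0 (v : V) : Fin 14 := ⟨min (v 0) (12 - v 1), by omega⟩

lemma good0 : Good c0 := by
  refine ⟨fun u v h => ?_, fun i hi => ?_⟩
  · have := (u 0).2
    have := (u 1).2
    have := (v 0).2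
    have := (v 1).2
    simp only [c0, Fin.mk.injEq] at h
    omega
  · have : cnt c0 i = (univ.filter fun p : Fin 13 × Fin 13 => min p.1.val (12 - p.2) = i).card :=
      card_equiv (finTwoArrowEquiv _) fun v => by
        simp only [mem_filter, mem_univ, true_and]
        rfl
    rw [this]
    revert i
    decide +kernel

lemma dbl {α β : Type} [Fintype α] [Fintype β] (P G : α → Prop) (D : β → Prop)
    (R : α → β → Prop) (f : α → ℤ) (g : β → ℤ) (K : ℕ)
    (h1 : ∀ a, G a → P a ∧ ∃! d, D d ∧ R a d) (h2 : ∀ a d, G a → D d → R a d → f a = g d)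
    (h3 : ∀ a, P a → ¬ G a → f a = 0)
    (h4 : ∀ d, D d → (univ.filter fun a => G a ∧ R a d).card = K) :
    ∑ a ∈ univ.filter P, f a = K * ∑ d ∈ univ.filter D, g d := by
  calc _ = ∑ c, ∑ d ∈ univ.filter D, if G c ∧ R c d then g d else 0 := by
        rw [sum_filter]
        refine sum_congr rfl fun c _ => ?_
        by_cases h : G c
        · obtain ⟨h0, d, ⟨h5, h6⟩, h7⟩ := h1 c h
          rw [if_pos h0, sum_eq_single_of_mem d (by simpa using h5), if_pos ⟨h, h6⟩,
            h2 c d h h5 h6]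
          exact fun e he hne => if_neg fun hh => hne (h7 e ⟨by simpa using he, hh.2⟩)
        · rw [sum_eq_zero fun d _ => if_neg fun hh => h hh.1]
          split_ifs with h5
          · exact h3 c h5 h
          · rfl
    _ = _ := by
        rw [sum_comm, mul_sum]
        refine sum_congr rfl fun d hd => ?_
        rw [← sum_filter, sum_const, nsmul_eq_mul, h4 d (by simpa using hd)]

lemma main_red : ∃ K : ℕ, 0 < K ∧ ∑ c ∈ univ.filter Pr, F 14 (cnt c) alN =
    K * ∑ d ∈ univ.filter Dd, psi (cnt d.2) := by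
  obtain ⟨d0, ⟨h0, h1⟩, -⟩ := exu good0
  refine ⟨fib d0, fib_pos good0 h1, dbl Pr Good Dd R _ _ _ (fun c h => ⟨h.1, exu h⟩)
    (fun c d h h2 h3 => ?_) (fun c h h2 => ?_) fun d hd => ?_⟩
  · rw [F14 _ (hb h.1), if_pos h.2, funext (cnt_small h2 h3)]
  · rw [F14 _ (hb h), if_neg fun hh => h2 ⟨h, hh⟩]
  · rw [← le_antisymm (fib_le hd h0) (fib_le h0 hd)]
    unfold fib
    congr

end Pool.Agent.H.MP_6f0325_co
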